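import Pool.Agent.H.MP_1ed635_nt.A

set_option autoImplicit false
open MvPolynomial

namespace Pool.Agent.Results.MP_1ed635_nt.Yes

open Pool.Agent.H.MP_1ed635_nt

/-- The `K`-representations of `f` of length `r` as a sum of `d`-th powers of linear forms, each
recorded as its multiset of summands. -/
def Reps (K : Subfield ℂ) (f : MvPolynomial (Fin 2) ℂ) (d r : ℕ) :
    Set (Multiset (MvPolynomial (Fin 2) ℂ)) :=
  {s | ∃ l a b : Fin r → ℂ, (∀ j, l j ∈ K ∧ a j ∈ K ∧ b j ∈ K) ∧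
    s = Finset.univ.val.map (fun j => C (l j) * (C (a j) * X 0 + C (b j) * X 1) ^ d) ∧ f = s.sum}

noncomputable def f : MvPolynomial (Fin 2) ℂ := C 9 * X 0 ^ 4 + C 54 * (X 0 ^ 2 * X 1 ^ 2) + X 1 ^ 4

noncomputable def sm {r : ℕ} (l a b : Fin r → ℚ) : Multiset (MvPolynomial (Fin 2) ℂ) :=
  Finset.univ.val.map fun j => C (l j : ℂ) * (C (a j : ℂ) * X 0 + C (b j : ℂ) * X 1) ^ 4

def E {r : ℕ} (l a b : Fin r → ℚ) : Prop := ∑ j, l j * a j ^ 4 = 9 ∧ ∑ j, l j * a j ^ 3 * b j = 0 ∧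
  ∑ j, l j * a j ^ 2 * b j ^ 2 = 9 ∧ ∑ j, l j * a j * b j ^ 3 = 0 ∧ ∑ j, l j * b j ^ 4 = 1

lemma rep {r : ℕ} {s : Multiset (MvPolynomial (Fin 2) ℂ)}
    (h : s ∈ Reps (Rat.castHom ℂ).fieldRange f 4 r) : ∃ l a b : Fin r → ℚ, s = sm l a b ∧ E l a b := by
  obtain ⟨l, a, b, h, rfl, e⟩ := h
  choose l' hl using fun j => (h j).1
  choose a' ha using fun j => (h j).2.1
  choose b' hb using fun j => (h j).2.2
  obtain rfl := funext hl
  obtain rfl := funext ha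
  obtain rfl := funext hb
  refine ⟨l', a', b', rfl, ?_⟩
  have k : ∀ x y : ℚ, 9 * x ^ 4 + 54 * (x ^ 2 * y ^ 2) + y ^ 4 = (∑ j, l' j * a' j ^ 4) * x ^ 4 +
      4 * (∑ j, l' j * a' j ^ 3 * b' j) * x ^ 3 * y + 6 * (∑ j, l' j * a' j ^ 2 * b' j ^ 2) * x ^ 2 *
      y ^ 2 + 4 * (∑ j, l' j * a' j * b' j ^ 3) * x * y ^ 3 + (∑ j, l' j * b' j ^ 4) * y ^ 4 :=
    fun x y => by
      have := congrArg (eval ![(x : ℂ), y]) e
      rw [← Finset.sum_eq_multiset_sum] at this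
      simp only [f, map_add, map_mul, map_pow, eval_C, eval_X, map_sum, Matrix.cons_val_zero,
        Matrix.cons_val_one, Rat.coe_castHom] at this
      simp only [Finset.mul_sum, Finset.sum_mul, ← Finset.sum_add_distrib]
      refine Eq.trans (by exact_mod_cast this) (Finset.sum_congr rfl fun j _ => ?_ :
        ∑ j, l' j * (a' j * x + b' j * y) ^ 4 = _)
      ring
  have h1 := k 1 0
  have h2 := k 0 1
  have h3 := k 1 1
  have h4 := k 1 (-1)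
  have h5 := k 1 2
  refine ⟨?_, ?_, ?_, ?_, ?_⟩ <;> linarith

lemma det {l a b : Fin 3 → ℚ} (h : E l a b) : l 0 * l 1 * l 2 * ((a 0 * b 1 - a 1 * b 0) *
    (a 0 * b 2 - a 2 * b 0) * (a 1 * b 2 - a 2 * b 1)) ^ 2 ≠ 0 := by
  simp only [E, Fin.sum_univ_three] at h
  obtain ⟨h0, h1, h2, h3, h4⟩ := h
  have : ∀ c0 c1 c2 c3 c4 : ℚ, c0 = 9 → c1 = 0 → c2 = 9 → c3 = 0 → c4 = 1 →
      c0 * (c2 * c4 - c3 ^ 2) - c1 * (c1 * c4 - c2 * c3) + c2 * (c1 * c3 - c2 ^ 2) ≠ 0 := by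
    rintro _ _ _ _ _ rfl rfl rfl rfl rfl; norm_num
  exact fun e => this _ _ _ _ _ h0 h1 h2 h3 h4 (by linear_combination e)

lemma dir {l0 l1 l2 a0 a1 a2 b0 b1 b2 : ℚ} (h : E ![l0, l1, l2] ![a0, a1, a2] ![b0, b1, b2]) :
    IsSquare (9 * a0 ^ 4 - 74 * a0 ^ 2 * b0 ^ 2 + 81 * b0 ^ 4) ∧
    9 * l0 * ((a0 * b1 - a1 * b0) * (a0 * b2 - a2 * b0)) * (a0 ^ 2 + b0 ^ 2) =
      9 * (18 * b1 * b2 + 10 * a1 * a2) := by
  have d := det h
  simp only [E, Fin.sum_univ_three, Matrix.cons_val] at h d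
  obtain ⟨h0, h1, h2, h3, h4⟩ := h
  refine ⟨?_, by linear_combination 9 * b1 * b2 * (h0 + h2) - 9 * (a1 * b2 + a2 * b1) * (h1 + h3) +
    9 * a1 * a2 * (h2 + h4)⟩
  have D : a1 * b2 - a2 * b1 ≠ 0 := fun e => by simp [e] at d
  obtain ⟨q0, q1, q2, e0, e1, e2⟩ : ∃ q0 q1 q2, q0 = b1 * b2 ∧ q1 = -(a1 * b2 + a2 * b1) ∧
    q2 = a1 * a2 := ⟨_, _, _, rfl, rfl, rfl⟩
  have c1 : b0 * q0 - a0 * q1 + b0 * q2 = 0 := by
    subst e0 e1 e2
    linear_combination (-(b0 * b1 * b2) * h0 + (a0 * b1 * b2 + b0 * (a1 * b2 + a2 * b1)) * h1 -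
      (a0 * (a1 * b2 + a2 * b1) + b0 * a1 * a2) * h2 + a0 * a1 * a2 * h3) / 9
  have c2 : -9 * a0 * q0 + 9 * b0 * q1 - a0 * q2 = 0 := by
    subst e0 e1 e2
    linear_combination -(b0 * b1 * b2) * h1 + (a0 * b1 * b2 + b0 * (a1 * b2 + a2 * b1)) * h2 -
      (a0 * (a1 * b2 + a2 * b1) + b0 * a1 * a2) * h3 + a0 * a1 * a2 * h4
  have dq : q1 ^ 2 - 4 * q0 * q2 = (a1 * b2 - a2 * b1) ^ 2 := by subst e0 e1 e2; ring
  generalize a1 * b2 - a2 * b1 = D' at *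
  by_cases z : q0 = 0
  · have z1 : q1 ≠ 0 := fun e => D (by simpa [z, e] using dq.symm)
    refine ⟨4 * a0 * b0 * D' / q1, ?_⟩
    field_simp
    grind
  · refine ⟨(a0 ^ 2 - 9 * b0 ^ 2) * D' / (2 * q0), ?_⟩
    field_simp
    grind

theorem result : ∃ d ≥ 3, ∃ f : MvPolynomial (Fin 2) ℂ, f.IsHomogeneous d ∧
    ∃ K : Subfield ℂ, (∀ m, f.coeff m ∈ K) ∧ ∃ L, IsLeast {r | (Reps K f d r).Nonempty} L ∧
      (Reps K f d L).Finite ∧ (Reps K f d L).Nontrivial := by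
  have m : ∀ l a b : Fin 3 → ℚ, f = (sm l a b).sum →
      sm l a b ∈ Reps (Rat.castHom ℂ).fieldRange f 4 3 := fun l a b h =>
    ⟨_, _, _, fun j => ⟨⟨l j, rfl⟩, ⟨a j, rfl⟩, b j, rfl⟩, rfl, h⟩
  have m1 := m ![9 / 2, 9 / 2, -8] ![1, -1, 0] ![1, 1, 1] (MvPolynomial.funext fun x => by
    rw [sm, ← Finset.sum_eq_multiset_sum]; simp [f, Fin.sum_univ_three]; ring)
  have m2 := m ![1 / 2, 1 / 2, -72] ![3, -3, 1] ![1, 1, 0] (MvPolynomial.funext fun x => by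
    rw [sm, ← Finset.sum_eq_multiset_sum]; simp [f, Fin.sum_univ_three]; ring)
  refine ⟨4, by decide, f, ((isHomogeneous_C_mul_X_pow _ _ _).add (((isHomogeneous_X_pow _ 2).mul
    (isHomogeneous_X_pow _ 2)).C_mul _)).add (isHomogeneous_X_pow _ _), (Rat.castHom ℂ).fieldRange,
    fun m => ?_, 3, ⟨⟨_, m1⟩, fun r ⟨s, hs⟩ => ?_⟩, ?_, _, m1, _, m2, fun e => ?_⟩
  · refine ⟨coeff m (C 9 * X 0 ^ 4 + C 54 * (X 0 ^ 2 * X 1 ^ 2) + X 1 ^ 4), ?_⟩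
    rw [← coeff_map]
    simp [f]
  · obtain ⟨l, a, b, -, h⟩ := rep hs
    by_contra! c
    interval_cases r
    · simp [E] at h
    · exact det (l := ![l 0, 0, 0]) (a := ![a 0, 0, 0]) (b := ![b 0, 0, 0])
        (by simpa [E, Fin.sum_univ_three] using h) (by simp)
    · exact det (l := ![l 0, l 1, 0]) (a := ![a 0, a 1, 0]) (b := ![b 0, b 1, 0])
        (by simpa [E, Fin.sum_univ_three] using h) (by simp)
  · obtain ⟨W, hW, fW⟩ : ∃ W : Set (ℚ × ℚ), (∀ a b : ℚ, IsSquare (9 * a ^ 4 - 74 * a ^ 2 * b ^ 2 +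
        81 * b ^ 4) → ∃ p ∈ W, ∃ c, a = c * p.1 ∧ b = c * p.2) ∧ W.Finite ∧ 0 ∉ W := by
      refine ⟨_, fun a b ⟨z, h⟩ => ?_, (finV.image fun v => (v, 1)).insert (1, 0),
        by simp [Prod.ext_iff]⟩
      by_cases b0 : b = 0
      · exact ⟨_, .inl rfl, a, by simp, by simp [b0]⟩
      · exact ⟨_, .inr ⟨a / b, ⟨z / b ^ 2, by field_simp; linear_combination h⟩, rfl⟩, b,
          by simp [mul_div_cancel₀, b0], by simp⟩
    refine ((Set.Finite.pi' fun _ : Fin 3 => fW.1).image fun p => sm (fun j =>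
      (18 * (p (j + 1)).2 * (p (j + 2)).2 + 10 * (p (j + 1)).1 * (p (j + 2)).1) /
      (((p j).1 * (p (j + 1)).2 - (p (j + 1)).1 * (p j).2) * ((p j).1 * (p (j + 2)).2 -
        (p (j + 2)).1 * (p j).2) * ((p j).1 ^ 2 + (p j).2 ^ 2))) (fun j => (p j).1)
        fun j => (p j).2).subset fun s hs => ?_
    obtain ⟨l, a, b, rfl, h⟩ := rep hs
    have k : ∀ {l a b : Fin 3 → ℚ}, E l a b → ∀ j, E ![l j, l (j + 1), l (j + 2)]
        ![a j, a (j + 1), a (j + 2)] ![b j, b (j + 1), b (j + 2)] := fun h j => by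
      simp only [E, Fin.sum_univ_three] at h ⊢
      obtain ⟨h0, h1, h2, h3, h4⟩ := h
      fin_cases j <;> simp <;> refine ⟨?_, ?_, ?_, ?_, ?_⟩ <;> linarith
    choose p hp c ha hb using fun j => hW _ _ (dir (k h j)).1
    have h' : E (fun j => l j * c j ^ 4) (fun j => (p j).1) fun j => (p j).2 := by
      simp only [E, ha, hb, Fin.sum_univ_three] at h ⊢
      obtain ⟨h0, h1, h2, h3, h4⟩ := h
      refine ⟨?_, ?_, ?_, ?_, ?_⟩ <;> linarith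
    refine ⟨p, hp, Multiset.map_congr rfl fun j _ => ?_⟩
    have d := det (k h' j)
    simp only [Matrix.cons_val, ne_eq, mul_eq_zero, not_or, pow_eq_zero_iff two_ne_zero] at d
    have n : (p j).1 ^ 2 + (p j).2 ^ 2 ≠ 0 := fun e => fW.2 (by
      rw [show (0 : ℚ × ℚ) = p j from Prod.ext (by simp; nlinarith) (by simp; nlinarith)]
      exact hp j)
    simp only
    rw [(div_eq_iff (mul_ne_zero (mul_ne_zero d.2.1.1 d.2.1.2) n)).2
      (by linear_combination -(dir (k h' j)).2 / 9 : _ = l j * c j ^ 4 * _), ha, hb]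
    push_cast
    simp only [map_mul, map_pow]
    ring
  · have : C ((-8 : ℚ) : ℂ) * (C ((0 : ℚ) : ℂ) * X 0 + C ((1 : ℚ) : ℂ) * X 1) ^ 4 ∈
        sm ![1 / 2, 1 / 2, -72] ![3, -3, 1] ![1, 1, 0] := e ▸ Multiset.mem_map.2 ⟨2, by simp, rfl⟩
    obtain ⟨j, -, h⟩ := Multiset.mem_map.1 this
    have := congrArg (eval ![1, 0]) h
    fin_cases j <;> simp at this

end Pool.Agent.Results.MP_1ed635_nt.Yes
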